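import Pool.Agent.K3h52.TP.Net

set_option autoImplicit false

/-!
Volumes of intersections with reflections.
-/

namespace Pool.Agent.K3h52.HR

open MeasureTheory Module
open scoped Pointwise ENNReal

variable {E : Type*} [NormedAddCommGroup E] [NormedSpace ℝ E] [FiniteDimensional ℝ E]
  [MeasurableSpace E] [BorelSpace E] (μ : Measure E) [μ.IsAddHaarMeasure]

theorem conv_int (S T : Set E) (hS : MeasurableSet S) (hT : MeasurableSet T) :
    ∫⁻ z, μ (S ∩ {x | z - x ∈ T}) ∂μ = μ S * μ T := by
  have h1 : ∀ c, μ (S ∩ {x | c - x ∈ T}) =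
      ∫⁻ x, S.indicator (fun _ => (1 : ℝ≥0∞)) x * T.indicator (fun _ => (1 : ℝ≥0∞)) (c - x) ∂μ := by
    intro c
    have hm : MeasurableSet (S ∩ {x | c - x ∈ T}) :=
      hS.inter ((measurable_const.sub measurable_id) hT)
    rw [← lintegral_indicator_one hm]
    congr 1
    ext x
    by_cases h : x ∈ S
    · by_cases h' : c - x ∈ T
      · rw [Set.indicator_of_mem (show x ∈ S ∩ {x | c - x ∈ T} from ⟨h, h'⟩),
          Set.indicator_of_mem h, Set.indicator_of_mem h']
        simp
      · rw [Set.indicator_of_notMem (fun hh => h' hh.2), Set.indicator_of_notMem h', mul_zero]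
    · rw [Set.indicator_of_notMem (fun hh => h hh.1), Set.indicator_of_notMem h, zero_mul]
  simp_rw [h1]
  have hindS : Measurable (S.indicator (fun _ => (1 : ℝ≥0∞))) := measurable_const.indicator hS
  have hindT : Measurable (T.indicator (fun _ => (1 : ℝ≥0∞))) := measurable_const.indicator hT
  rw [lintegral_lintegral_swap]
  · have h2 : ∀ x, ∫⁻ c, S.indicator (fun _ => (1 : ℝ≥0∞)) x *
        T.indicator (fun _ => (1 : ℝ≥0∞)) (c - x) ∂μ =
        S.indicator (fun _ => (1 : ℝ≥0∞)) x * μ T := by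
      intro x
      have h3 : Measurable (fun c => T.indicator (fun _ => (1 : ℝ≥0∞)) (c - x)) :=
        hindT.comp (measurable_id.sub_const x)
      rw [lintegral_const_mul _ h3,
        lintegral_sub_right_eq_self (fun c => T.indicator (fun _ => (1 : ℝ≥0∞)) c) x]
      congr 1
      exact lintegral_indicator_one hT
    simp_rw [h2]
    rw [lintegral_mul_const _ hindS]
    congr 1
    exact lintegral_indicator_one hS
  · refine Measurable.aemeasurable ?_
    refine Measurable.mul ?_ ?_
    · exact hindS.comp measurable_snd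
    · exact hindT.comp (measurable_fst.sub measurable_snd)

theorem lower {S T Z W : Set E} (hS : IsCompact S) (hT : IsCompact T) (hZ : IsCompact Z)
    (h : ∀ z ∈ Z, ∃ b : E, ∀ w ∈ W, b + w ∈ S ∧ z - (b + w) ∈ T) :
    μ.real Z * μ.real W ≤ μ.real S * μ.real T := by
  have h1 : μ Z * μ W ≤ μ S * μ T := by
    rw [← conv_int μ S T hS.isClosed.measurableSet hT.isClosed.measurableSet]
    calc μ Z * μ W = ∫⁻ z in Z, μ W ∂μ := by rw [setLIntegral_const, mul_comm]
      _ ≤ ∫⁻ z in Z, μ (S ∩ {x | z - x ∈ T}) ∂μ := by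
          refine setLIntegral_mono' hZ.isClosed.measurableSet fun z hz => ?_
          obtain ⟨b, hb⟩ := h z hz
          rw [← measure_preimage_add μ b (S ∩ {x | z - x ∈ T})]
          exact measure_mono fun w hw => hb w hw
      _ ≤ _ := setLIntegral_le_lintegral _ _
  have h2 := ENNReal.toReal_mono
    (ENNReal.mul_ne_top hS.measure_lt_top.ne hT.measure_lt_top.ne) h1
  rwa [ENNReal.toReal_mul, ENNReal.toReal_mul] at h2

theorem vol_smul {k : ℝ} (hk : 0 ≤ k) (A : Set E) :
    μ.real (k • A) = k ^ finrank ℝ E * μ.real A := by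
  rw [measureReal_def, Measure.addHaar_smul, abs_of_nonneg (by positivity), ENNReal.toReal_mul,
    ENNReal.toReal_ofReal (by positivity)]
  rfl

theorem vol_pre {k : ℝ} (hk : 0 < k) (c : E) (A : Set E) :
    μ.real {v | c + k • v ∈ A} = (1 / k) ^ finrank ℝ E * μ.real A := by
  have h1 : {v | c + k • v ∈ A} = (fun v => k • v) ⁻¹' ((fun v => c + v) ⁻¹' A) := rfl
  rw [h1, measureReal_def, Measure.addHaar_preimage_smul μ hk.ne', measure_preimage_add,
    abs_of_nonneg (by positivity), ENNReal.toReal_mul, ENNReal.toReal_ofReal (by positivity),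
    one_div, inv_pow]
  rfl

theorem diff {G : Set E} (hG : Convex ℝ G) (hGc : IsCompact G) (hpos : 0 < μ.real G) :
    μ.real (G - G) ≤ 4 ^ finrank ℝ E * μ.real G := by
  have hGG : IsCompact (G - G) := by
    rw [sub_eq_add_neg]
    exact hGc.add hGc.neg
  have h1 := lower μ (S := G) (T := -G) (Z := (1 / 2 : ℝ) • (G - G)) (W := (1 / 2 : ℝ) • G)
    hGc hGc.neg (hGG.smul _) (by
      rintro _ ⟨_, ⟨g, hg, g', hg', rfl⟩, rfl⟩
      refine ⟨(1 / 2 : ℝ) • g, ?_⟩
      rintro _ ⟨w, hw, rfl⟩
      constructor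
      · exact hG hg hw (by norm_num) (by norm_num) (by norm_num)
      · have h2 : (1 / 2 : ℝ) • g' + (1 / 2 : ℝ) • w ∈ G :=
          hG hg' hw (by norm_num) (by norm_num) (by norm_num)
        rw [Set.mem_neg]
        have e : -((fun x => (1 / 2 : ℝ) • x) (g - g') - ((1 / 2 : ℝ) • g + (fun x => (1 / 2 : ℝ) • x) w))
            = (1 / 2 : ℝ) • g' + (1 / 2 : ℝ) • w := by
          simp only [smul_sub]
          abel
        have e' : -((fun x1 x2 => x1 - x2) g g') = -(g - g') := rfl
        simpa only [e] using h2)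
  have h2 : μ.real (-G) = μ.real G := by
    rw [measureReal_def, Measure.measure_neg]
    rfl
  rw [vol_smul μ (by norm_num), vol_smul μ (by norm_num), h2] at h1
  set d := finrank ℝ E with hd
  have h3 : (1 / 2 : ℝ) ^ d * μ.real (G - G) * ((1 / 2) ^ d * μ.real G) =
      (1 / 4) ^ d * μ.real (G - G) * μ.real G := by
    have : (1 / 4 : ℝ) ^ d = (1 / 2) ^ d * (1 / 2) ^ d := by
      rw [← mul_pow]; norm_num
    rw [this]; ring
  rw [h3] at h1
  have h4 : (1 / 4 : ℝ) ^ d * μ.real (G - G) ≤ μ.real G := le_of_mul_le_mul_right h1 hpos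
  calc μ.real (G - G) = 4 ^ d * ((1 / 4 : ℝ) ^ d * μ.real (G - G)) := by
        rw [← mul_assoc, ← mul_pow]; norm_num
    _ ≤ 4 ^ d * μ.real G := mul_le_mul_of_nonneg_left h4 (by positivity)

/-- Many points of a convex body are centres of large symmetric subsets. -/
theorem central {C : Set E} (hC : Convex ℝ C) (hCc : IsCompact C) :
    ∃ U : Set E, MeasurableSet U ∧ U ⊆ C ∧ μ.real C ≤ 2 ^ (finrank ℝ E + 1) * μ.real U ∧
      ∀ u ∈ U, μ.real C ≤ 2 ^ (finrank ℝ E + 1) * μ.real (C ∩ {x | (2 : ℝ) • u - x ∈ C}) := by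
  set d := finrank ℝ E with hd
  have hCm : MeasurableSet C := hCc.isClosed.measurableSet
  have hCf : μ C ≠ ⊤ := hCc.measure_lt_top.ne
  have h2m : MeasurableSet ((2 : ℝ) • C) := (hCc.smul 2).isClosed.measurableSet
  set f : E → ℝ≥0∞ := fun z => μ (C ∩ {x | z - x ∈ C}) with hf
  have hfle : ∀ z, f z ≤ μ C := fun z => measure_mono Set.inter_subset_left
  have hff : ∀ z, f z ≠ ⊤ := fun z => ne_top_of_le_ne_top hCf (hfle z)
  have hfm : Measurable f := by
    have h1 : MeasurableSet {q : E × E | q.2 ∈ C ∧ q.1 - q.2 ∈ C} :=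
      (measurable_snd hCm).inter ((measurable_fst.sub measurable_snd) hCm)
    exact measurable_measure_prodMk_left h1
  set κ := μ.real C / 2 ^ (d + 1) with hκ
  have hκ0 : 0 ≤ κ := by positivity
  set V : Set E := (2 : ℝ) • C ∩ {z | κ ≤ (f z).toReal} with hV
  have hVm : MeasurableSet V := h2m.inter (measurableSet_le measurable_const hfm.ennreal_toReal)
  have h2f : μ ((2 : ℝ) • C) ≠ ⊤ := (hCc.smul 2).measure_lt_top.ne
  have hVf : μ V ≠ ⊤ := ne_top_of_le_ne_top h2f (measure_mono Set.inter_subset_left)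
  have hpt : ∀ z, f z ≤ V.indicator (fun _ => μ C) z +
      ((2 : ℝ) • C).indicator (fun _ => ENNReal.ofReal κ) z := by
    intro z
    by_cases hz : z ∈ (2 : ℝ) • C
    · by_cases hzV : z ∈ V
      · rw [Set.indicator_of_mem hzV]
        exact (hfle z).trans le_self_add
      · rw [Set.indicator_of_notMem hzV, Set.indicator_of_mem hz, zero_add]
        have h1 : (f z).toReal ≤ κ := by
          by_contra hcon
          push Not at hcon
          exact hzV ⟨hz, hcon.le⟩
        rw [← ENNReal.ofReal_toReal (hff z)]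
        exact ENNReal.ofReal_le_ofReal h1
    · have : C ∩ {x | z - x ∈ C} = ∅ := by
        ext x
        simp only [Set.mem_inter_iff, Set.mem_ofPred_eq, Set.mem_empty_iff_false, iff_false,
          not_and]
        intro hx hcx
        apply hz
        have h3 := hC hx hcx (show (0 : ℝ) ≤ 1 / 2 by norm_num) (show (0 : ℝ) ≤ 1 / 2 by norm_num)
          (by norm_num)
        refine ⟨_, h3, ?_⟩
        simp only [smul_add, smul_smul]
        norm_num
      rw [hf]
      simp only
      rw [this, measure_empty]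
      exact zero_le
  have hint : μ C * μ C ≤ μ C * μ V + ENNReal.ofReal κ * μ ((2 : ℝ) • C) := by
    rw [← conv_int μ C C hCm hCm]
    refine (lintegral_mono hpt).trans ?_
    rw [lintegral_add_left (measurable_const.indicator hVm), lintegral_indicator_const hVm,
      lintegral_indicator_const h2m]
  have hreal : μ.real C * μ.real C ≤ μ.real C * μ.real V + κ * μ.real ((2 : ℝ) • C) := by
    have h1 := ENNReal.toReal_mono (ENNReal.add_ne_top.2 ⟨ENNReal.mul_ne_top hCf hVf,
      ENNReal.mul_ne_top ENNReal.ofReal_ne_top h2f⟩) hint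
    rw [ENNReal.toReal_add (ENNReal.mul_ne_top hCf hVf)
      (ENNReal.mul_ne_top ENNReal.ofReal_ne_top h2f), ENNReal.toReal_mul, ENNReal.toReal_mul,
      ENNReal.toReal_mul, ENNReal.toReal_ofReal hκ0] at h1
    exact h1
  rw [vol_smul μ (by norm_num), ← hd] at hreal
  have e1 : κ * (2 ^ d * μ.real C) = μ.real C * (μ.real C / 2) := by
    rw [hκ, pow_succ]
    field_simp
  rw [e1] at hreal
  have hCV : μ.real C ≤ 2 * μ.real V := by
    rcases eq_or_lt_of_le (measureReal_nonneg (μ := μ) (s := C)) with h0 | h0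
    · rw [← h0]
      positivity
    · have h1 : μ.real C * (μ.real C) ≤ μ.real C * (2 * μ.real V) := by nlinarith
      exact le_of_mul_le_mul_left h1 h0
  refine ⟨(1 / 2 : ℝ) • V, ?_, ?_, ?_, ?_⟩
  · exact hVm.const_smul₀ _
  · rintro _ ⟨z, ⟨⟨c, hc, rfl⟩, -⟩, rfl⟩
    simp only [smul_smul]
    norm_num
    exact hc
  · rw [vol_smul μ (by norm_num), ← hd]
    calc μ.real C ≤ 2 * μ.real V := hCV
      _ = 2 ^ (d + 1) * ((1 / 2) ^ d * μ.real V) := by
        rw [pow_succ]
        have : (2 : ℝ) ^ d * (1 / 2) ^ d = 1 := by rw [← mul_pow]; norm_num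
        calc 2 * μ.real V = ((2 : ℝ) ^ d * (1 / 2) ^ d) * (2 * μ.real V) := by rw [this, one_mul]
          _ = _ := by ring
  · rintro _ ⟨z, ⟨-, hz⟩, rfl⟩
    have h1 : (2 : ℝ) • (fun x => (1 / 2 : ℝ) • x) z = z := by
      simp only [smul_smul]
      norm_num
    rw [h1]
    have h2 : κ ≤ μ.real (C ∩ {x | z - x ∈ C}) := hz
    rw [hκ, div_le_iff₀ (by positivity)] at h2
    linarith

/-- Sets with positive volume which are convex and compact have interior points. -/
theorem int_of_pos {C : Set E} (hC : Convex ℝ C) (hCc : IsCompact C) (h : 0 < μ.real C) :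
    (interior C).Nonempty := by
  rw [Set.nonempty_iff_ne_empty]
  intro hemp
  have h1 := TP.real_interior μ hC hCc
  rw [hemp, measureReal_empty] at h1
  linarith

omit [NormedAddCommGroup E] [NormedSpace ℝ E] [FiniteDimensional ℝ E] [BorelSpace E]
  [μ.IsAddHaarMeasure] in
/-- Multiplicity bound. -/
theorem mult {ι : Type*} (F : Finset ι) (U : ι → Set E) (P : Set E) (hP : MeasurableSet P)
    (hPf : μ P ≠ ⊤) (hU : ∀ i ∈ F, MeasurableSet (U i)) (hUP : ∀ i ∈ F, U i ⊆ P) (k : ℝ)
    (h : ∀ u ∈ P, ∀ J ⊆ F, (∀ i ∈ J, u ∈ U i) → (J.card : ℝ) ≤ k) :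
    ∑ i ∈ F, μ.real (U i) ≤ k * μ.real P := by
  classical
  have hUf : ∀ i ∈ F, μ (U i) ≠ ⊤ := fun i hi => ne_top_of_le_ne_top hPf (measure_mono (hUP i hi))
  have hint : ∀ i ∈ F, Integrable ((U i).indicator (fun _ => (1 : ℝ))) μ := fun i hi =>
    (integrable_indicator_iff (hU i hi)).2 (integrableOn_const (hUf i hi))
  have h1 : ∑ i ∈ F, μ.real (U i) = ∫ u, ∑ i ∈ F, (U i).indicator (fun _ => (1 : ℝ)) u ∂μ := by
    rw [integral_finsetSum F hint]
    refine Finset.sum_congr rfl fun i hi => ?_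
    rw [integral_indicator_const _ (hU i hi), smul_eq_mul, mul_one]
  have h2 : k * μ.real P = ∫ u, P.indicator (fun _ => k) u ∂μ := by
    rw [integral_indicator_const _ hP, smul_eq_mul, mul_comm]
  rw [h1, h2]
  refine integral_mono (integrable_finsetSum F hint)
    ((integrable_indicator_iff hP).2 (integrableOn_const hPf)) fun u => ?_
  by_cases hu : u ∈ P
  · simp only
    rw [Set.indicator_of_mem hu]
    have h3 := h u hu (F.filter fun i => u ∈ U i) (Finset.filter_subset _ _)
      (fun i hi => (Finset.mem_filter.1 hi).2)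
    refine le_trans (le_of_eq ?_) h3
    rw [Finset.card_filter]
    push_cast
    refine Finset.sum_congr rfl fun i _ => ?_
    by_cases hi : u ∈ U i
    · rw [Set.indicator_of_mem hi, if_pos hi]
    · rw [Set.indicator_of_notMem hi, if_neg hi]
  · simp only
    rw [Set.indicator_of_notMem hu]
    refine le_of_eq (Finset.sum_eq_zero fun i hi => ?_)
    exact Set.indicator_of_notMem (fun hh => hu (hUP i hi hh)) _

end Pool.Agent.K3h52.HR
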