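import Pool.Agent.K3h52.HR.Pol
import Pool.Agent.K3h52.HR.Vol

set_option autoImplicit false
set_option linter.unusedSectionVars false

/-!
Caps of the polar body.
-/

namespace Pool.Agent.K3h52.HR

open scoped RealInnerProductSpace Pointwise
open Module MeasureTheory
open Pool.Agent.H845R2 (SB pol pol_anti pol_closed pol_convex)

variable {V : Type*} [NormedAddCommGroup V] [InnerProductSpace ℝ V] [FiniteDimensional ℝ V]
  [MeasurableSpace V] [BorelSpace V] (μ : Measure V) [μ.IsAddHaarMeasure]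

/-- The cap of the polar body at `p`. -/
def dcap (K : Set V) (ζ : ℝ) (p : V) : Set V := {u | u ∈ pol K ∧ 1 - 2 * ζ ≤ ⟪p, u⟫}

theorem dcap_conv (K : Set V) (ζ : ℝ) (p : V) : Convex ℝ (dcap K ζ p) := by
  intro x hx y hy a b ha hb hab
  refine ⟨pol_convex K hx.1 hy.1 ha hb hab, ?_⟩
  rw [inner_add_right, inner_smul_right, inner_smul_right]
  have h1 := mul_le_mul_of_nonneg_left hx.2 ha
  have h2 := mul_le_mul_of_nonneg_left hy.2 hb
  have h3 : a * (1 - 2 * ζ) + b * (1 - 2 * ζ) = 1 - 2 * ζ := by rw [← add_mul, hab, one_mul]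
  linarith

theorem dcap_comp {K : Set V} (hK : (0 : V) ∈ interior K) (ζ : ℝ) (p : V) :
    IsCompact (dcap K ζ p) := by
  refine (pol_comp hK).of_isClosed_subset ?_ (fun u hu => hu.1)
  have e : dcap K ζ p = pol K ∩ {u | 1 - 2 * ζ ≤ ⟪p, u⟫} := rfl
  rw [e]
  exact (pol_closed K).inter (isClosed_le continuous_const (by fun_prop))

theorem pol_i0 {K : Set V} (hK : IsCompact K) : (0 : V) ∈ interior (pol K) := by
  obtain ⟨R, hR⟩ := hK.isBounded.exists_norm_le
  refine mem_interior_iff_mem_nhds.2 (Filter.mem_of_superset (Metric.closedBall_mem_nhds 0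
    (show 0 < 1 / (max R 1) by positivity)) fun y hy x hx => ?_)
  rw [mem_closedBall_zero_iff] at hy
  calc ⟪x, y⟫ ≤ ‖x‖ * ‖y‖ := real_inner_le_norm x y
    _ ≤ max R 1 * (1 / max R 1) :=
      mul_le_mul ((hR x hx).trans (le_max_left _ _)) hy (norm_nonneg _) (by positivity)
    _ = 1 := by
      have : (0 : ℝ) < max R 1 := by positivity
      field_simp

/-- The polar with respect to a point near the boundary is not much larger than the cap. -/
theorem pol_shift_le {K : Set V} (hK : Bd K) {x' u₀ : V} (hx' : x' ∈ K) (hu₀ : u₀ ∈ pol K)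
    (h1 : ⟪x', u₀⟫ = 1) {ζ : ℝ} (hζ : 0 < ζ) (hζ1 : ζ < 1) :
    μ.real (pol {a | (1 - ζ) • x' + a ∈ K}) ≤
      (1 / ζ + 1) * ((2 / ζ) ^ finrank ℝ V * μ.real (dcap K ζ ((1 - ζ) • x'))) := by
  set x := (1 - ζ) • x' with hx
  set n := ⌊1 / ζ⌋₊ + 1 with hn
  set P : ℕ → Set V := fun i =>
    {v | (1 - ζ * (i + 1) / 2) • u₀ + (ζ / 2) • v ∈ dcap K ζ x} with hP
  have hcov : pol {a | x + a ∈ K} ⊆ ⋃ i ∈ Finset.range n, P i := by
    intro v hv
    set l := 1 + ⟪x, v⟫ with hl
    have hl0 : 0 ≤ l := by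
      have := hv (-x) (by
        show x + -x ∈ K
        rw [add_neg_cancel]
        exact hK.zero)
      rw [inner_neg_left] at this
      linarith
    have hl1 : l ≤ 1 / ζ := by
      have := hv (ζ • x') (by
        show x + ζ • x' ∈ K
        rw [hx, ← add_smul, sub_add_cancel, one_smul]
        exact hx')
      rw [inner_smul_left] at this
      simp only [conj_trivial] at this
      have h3 : l = 1 + (1 - ζ) * ⟪x', v⟫ := by
        rw [hl, hx, inner_smul_left]
        simp only [conj_trivial]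
      rw [h3, le_div_iff₀ hζ]
      nlinarith
    have hfl : (⌊l⌋₊ : ℝ) ≤ l := Nat.floor_le hl0
    have hfl1 : l < ⌊l⌋₊ + 1 := Nat.lt_floor_add_one l
    have hin : ⌊l⌋₊ < n := by
      rw [hn]
      exact Nat.lt_succ_of_le (Nat.floor_le_floor hl1)
    rw [Set.mem_iUnion₂]
    refine ⟨⌊l⌋₊, Finset.mem_range.2 hin, ?_⟩
    set i : ℝ := ((⌊l⌋₊ : ℕ) : ℝ) with hi
    set s := ζ * (i + 1) / 2 with hs
    have hs1 : s ≤ 1 := by
      have h3 : ζ * i ≤ 1 := by
        have : i ≤ 1 / ζ := hfl.trans hl1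
        rw [le_div_iff₀ hζ] at this
        linarith
      rw [hs]
      nlinarith
    have hs0 : 0 ≤ s := by positivity
    show (1 - s) • u₀ + (ζ / 2) • v ∈ dcap K ζ x
    refine ⟨?_, ?_⟩
    · intro y hy
      have h3 := hv (y - x) (by
        show x + (y - x) ∈ K
        rw [add_sub_cancel]
        exact hy)
      rw [inner_sub_left] at h3
      rw [inner_add_right, inner_smul_right, inner_smul_right]
      have h4 := mul_le_mul_of_nonneg_left (hu₀ y hy) (by linarith : 0 ≤ 1 - s)
      have h5 : ⟪y, v⟫ ≤ i + 1 := by linarith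
      have h6 := mul_le_mul_of_nonneg_left h5 (by positivity : 0 ≤ ζ / 2)
      have h7 : (1 - s) * 1 + ζ / 2 * (i + 1) = 1 := by rw [hs]; ring
      linarith
    · rw [inner_add_right, inner_smul_right, inner_smul_right]
      have h3 : ⟪x, u₀⟫ = 1 - ζ := by
        rw [hx, inner_smul_left, h1]
        simp
      rw [h3]
      have h4 : i - 1 ≤ ⟪x, v⟫ := by linarith
      have h5 := mul_le_mul_of_nonneg_left h4 (by positivity : 0 ≤ ζ / 2)
      have h6 : (1 - s) * (1 - ζ) + ζ / 2 * (i - 1) = 1 - 2 * ζ + s * ζ := by rw [hs]; ring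
      have h7 : 0 ≤ s * ζ := by positivity
      linarith
  have hCf : μ (dcap K ζ x) ≠ ⊤ := (dcap_comp hK.i0 ζ x).measure_lt_top.ne
  have hPf : ∀ i, μ (P i) ≠ ⊤ := by
    intro i
    have e : P i = (fun v => (ζ / 2) • v) ⁻¹'
        ((fun v => (1 - ζ * (i + 1) / 2) • u₀ + v) ⁻¹' dcap K ζ x) := rfl
    rw [e, Measure.addHaar_preimage_smul μ (by positivity), measure_preimage_add]
    exact ENNReal.mul_ne_top ENNReal.ofReal_ne_top hCf
  calc μ.real (pol {a | x + a ∈ K}) ≤ μ.real (⋃ i ∈ Finset.range n, P i) := by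
        refine measureReal_mono hcov ?_
        refine ne_top_of_le_ne_top ?_ (measure_biUnion_finset_le _ _)
        exact ENNReal.sum_ne_top.2 fun i _ => hPf i
    _ ≤ ∑ i ∈ Finset.range n, μ.real (P i) := measureReal_biUnion_finset_le _ _
    _ = ∑ i ∈ Finset.range n, (2 / ζ) ^ finrank ℝ V * μ.real (dcap K ζ x) := by
        refine Finset.sum_congr rfl fun i _ => ?_
        rw [hP]
        simp only
        rw [vol_pre μ (by positivity : 0 < ζ / 2)]
        congr 2
        field_simp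
    _ = n * ((2 / ζ) ^ finrank ℝ V * μ.real (dcap K ζ x)) := by
        rw [Finset.sum_const, Finset.card_range, nsmul_eq_mul]
    _ ≤ (1 / ζ + 1) * ((2 / ζ) ^ finrank ℝ V * μ.real (dcap K ζ x)) := by
        refine mul_le_mul_of_nonneg_right ?_ (by positivity)
        rw [hn]
        push_cast
        have := Nat.floor_le (show 0 ≤ 1 / ζ by positivity)
        linarith

/-- Lower bound for the volume of the cap. -/
theorem beta {K : Set V} (hK : Bd K) {x' u₀ : V} (hx' : x' ∈ K) (hu₀ : u₀ ∈ pol K)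
    (h1 : ⟪x', u₀⟫ = 1) {ζ : ℝ} (hζ : 0 < ζ) (hζ1 : ζ < 1) (VL : ℝ)
    (hL : ∀ S : Set V, SB S → VL ≤ μ.real S * μ.real (pol S)) :
    VL ≤ (1 / ζ + 1) * (8 / ζ) ^ finrank ℝ V *
      (μ.real (dcap K ζ ((1 - ζ) • x')) * μ.real (Mac K ((1 - ζ) • x'))) := by
  set x := (1 - ζ) • x' with hx
  have hxi : x ∈ interior K := by
    have := hK.conv.combo_self_interior_mem_interior hx' hK.i0 (by linarith : 0 ≤ 1 - ζ) hζ (by ring)
    rwa [smul_zero, add_zero] at this
  have hsb := mac_sb hK.conv hK.comp hxi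
  set G := pol {a | x + a ∈ K} with hG
  have hi0 : (0 : V) ∈ interior {a | x + a ∈ K} := by
    have h1 : IsOpen ((fun a => x + a) ⁻¹' interior K) := isOpen_interior.preimage (by fun_prop)
    refine interior_maximal (s := {a | x + a ∈ K}) (t := (fun a => x + a) ⁻¹' interior K)
      (fun a ha => interior_subset (s := K) ha) h1 ?_
    show x + 0 ∈ interior K
    rwa [add_zero]
  have hGc : IsCompact G := pol_comp hi0
  have hcp : IsCompact {a | x + a ∈ K} := by
    refine (hK.comp.image (f := fun y => y - x) (by fun_prop)).of_isClosed_subset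
      (hK.comp.isClosed.preimage (by fun_prop)) ?_
    intro a ha
    exact ⟨x + a, ha, by simp⟩
  have hGpos : 0 < μ.real G := TP.real_pos' μ hGc ⟨0, pol_i0 hcp⟩
  have hdiff := diff μ (pol_convex _) hGc hGpos
  have hle : μ.real (pol (Mac K x)) ≤ μ.real (G - G) := by
    refine measureReal_mono (pol_mac hK.conv hK.comp hxi) ?_
    rw [sub_eq_add_neg]
    exact (hGc.add hGc.neg).measure_lt_top.ne
  have hsh := pol_shift_le μ hK hx' hu₀ h1 hζ hζ1
  rw [← hx, ← hG] at hsh
  set d := finrank ℝ V with hd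
  set C := μ.real (dcap K ζ x) with hC
  set M := μ.real (Mac K x) with hM
  have hM0 : 0 ≤ M := measureReal_nonneg
  calc VL ≤ M * μ.real (pol (Mac K x)) := hL _ hsb
    _ ≤ M * (4 ^ d * ((1 / ζ + 1) * ((2 / ζ) ^ d * C))) := by
        refine mul_le_mul_of_nonneg_left ?_ hM0
        exact (hle.trans hdiff).trans (mul_le_mul_of_nonneg_left hsh (by positivity))
    _ = (1 / ζ + 1) * (8 / ζ) ^ d * (C * M) := by
        have e : (8 / ζ) ^ d = 4 ^ d * (2 / ζ) ^ d := by
          rw [← mul_pow]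
          congr 1
          ring
        rw [e]
        ring

end Pool.Agent.K3h52.HR
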