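import Pool.Agent.K3h52.HR.Cap

set_option autoImplicit false
set_option linter.unusedSectionVars false

/-!
The number of points of a net near the boundary.
-/

namespace Pool.Agent.K3h52.HR

open scoped RealInnerProductSpace Pointwise
open Module MeasureTheory
open Pool.Agent.H845R2 (SB pol pol_anti pol_closed pol_convex)

variable {V : Type*} [NormedAddCommGroup V] [InnerProductSpace ℝ V] [FiniteDimensional ℝ V]
  [MeasurableSpace V] [BorelSpace V] (μ : Measure V) [μ.IsAddHaarMeasure]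

/-- The Macbeath region of `p`, shrunk by `1/3`. -/
def Mth (K : Set V) (p : V) : Set V := {z | (-3 : ℝ) • p + (3 : ℝ) • z ∈ Mac K p}

theorem mth_closed {K : Set V} (hK : IsCompact K) (p : V) : IsClosed (Mth K p) :=
  (mac_comp hK p).isClosed.preimage (by fun_prop)

theorem mth_vol (K : Set V) (p : V) :
    μ.real (Mth K p) = (1 / 3) ^ finrank ℝ V * μ.real (Mac K p) :=
  vol_pre μ (by norm_num) _ _

theorem mth_sub {K : Set V} (hK : Convex ℝ K) {p : V} (hp : p ∈ K) : Mth K p ⊆ K := by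
  intro z hz
  have h1 := hK hp hz.1 (show (0 : ℝ) ≤ 2 / 3 by norm_num) (show (0 : ℝ) ≤ 1 / 3 by norm_num)
    (by norm_num)
  have e : (2 / 3 : ℝ) • p + (1 / 3 : ℝ) • (p + ((-3 : ℝ) • p + (3 : ℝ) • z)) = z := by
    simp only [smul_add, smul_smul]
    module
  rwa [e] at h1

/-- If the shrunken regions of `p` and `q` meet, the reflection of `q` in `p` is in `K`. -/
theorem mth_meet {K : Set V} (hK : Convex ℝ K) {p q z : V} (h1 : z ∈ Mth K p) (h2 : z ∈ Mth K q) :
    (2 : ℝ) • p - q ∈ K := by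
  have h3 := hK h2.1 h1.2 (show (0 : ℝ) ≤ 1 / 2 by norm_num) (show (0 : ℝ) ≤ 1 / 2 by norm_num)
    (by norm_num)
  have e : (1 / 2 : ℝ) • (q + ((-3 : ℝ) • q + (3 : ℝ) • z)) +
      (1 / 2 : ℝ) • (p - ((-3 : ℝ) • p + (3 : ℝ) • z)) = (2 : ℝ) • p - q := by
    module
  rwa [e] at h3

/-- The part of `K` near a supporting plane is in a multiple of a polar. -/
theorem mth_cap {K : Set V} (hK : Convex ℝ K) {ζ : ℝ} (hζ : 0 < ζ) {p u : V} (hp : p ∈ K)
    (hu : u ∈ dcap K ζ p) : Mth K p ⊆ (8 * ζ / 3) • pol (Mac (pol K) u) := by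
  intro z hz
  rw [Set.mem_smul_set_iff_inv_smul_mem₀ (by positivity)]
  intro a ha
  rw [inner_smul_right, inv_mul_le_iff₀ (by positivity), mul_one]
  have h1 : ⟪z, u + a⟫ ≤ 1 := ha.1 z (mth_sub hK hp hz)
  have h2 : ⟪p - ((-3 : ℝ) • p + (3 : ℝ) • z), u⟫ ≤ 1 := hu.1 _ hz.2
  have h3 := hu.2
  rw [inner_add_right] at h1
  rw [inner_sub_left, inner_add_left, inner_smul_left, inner_smul_left] at h2
  simp only [conj_trivial] at h2
  rw [real_inner_comm]
  linarith

theorem count {K : Set V} (hK : Bd K) {ζ : ℝ} (hζ : 0 < ζ) (F : Finset V)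
    (hF : ∀ p ∈ F, p ∈ interior K)
    (hdisj : ∀ p ∈ F, ∀ q ∈ F, p ≠ q → Disjoint (Mth K p) (Mth K q))
    (β : ℝ) (hβ : 0 < β) (hβF : ∀ p ∈ F, β ≤ μ.real (dcap K ζ p) * μ.real (Mac K p))
    (VU : ℝ) (hU : ∀ S : Set V, SB S → μ.real S * μ.real (pol S) ≤ VU)
    (hKK : μ.real K * μ.real (pol K) ≤ 2 ^ finrank ℝ V * VU) :
    (F.card : ℝ) ^ 2 * β ^ 2 ≤ 4 * (192 * ζ) ^ finrank ℝ V * VU ^ 2 := by
  classical
  set d := finrank ℝ V with hd
  have hVU : 0 ≤ VU := by
    have h1 : 0 ≤ μ.real K * μ.real (pol K) := by positivity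
    by_contra hcon
    push Not at hcon
    have : (2 : ℝ) ^ d * VU < 0 := mul_neg_of_pos_of_neg (by positivity) hcon
    linarith
  set s : V → ℝ := fun p => μ.real (Mac K p) with hs
  set c : V → ℝ := fun p => μ.real (dcap K ζ p) with hc
  have hs0 : ∀ p ∈ F, 0 < s p := fun p hp =>
    TP.real_pos' μ (mac_comp hK.comp p) (mac_sb hK.conv hK.comp (hF p hp)).int
  have hc0 : ∀ p, 0 ≤ c p := fun p => measureReal_nonneg
  -- Step A
  have hA : ∀ J ⊆ F, ∀ Z : Set V, μ Z ≠ ⊤ → (∀ p ∈ J, Mth K p ⊆ Z) →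
      (1 / 3) ^ d * ∑ p ∈ J, s p ≤ μ.real Z := by
    intro J hJ Z hZ hJZ
    rw [Finset.mul_sum]
    calc ∑ p ∈ J, (1 / 3) ^ d * s p = ∑ p ∈ J, μ.real (Mth K p) :=
          Finset.sum_congr rfl fun p _ => (mth_vol μ K p).symm
      _ = μ.real (⋃ p ∈ J, Mth K p) := by
          refine (measureReal_biUnion_finset ?_ ?_ ?_).symm
          · intro p hp q hq hpq
            exact hdisj p (hJ hp) q (hJ hq) hpq
          · intro p _
            exact (mth_closed hK.comp p).measurableSet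
          · intro p hp
            exact ne_top_of_le_ne_top hZ (measure_mono (hJZ p hp))
      _ ≤ μ.real Z := measureReal_mono (Set.iUnion₂_subset hJZ) hZ
  choose! U hUm hUC hUv hUc using fun p : V =>
    central μ (dcap_conv K ζ p) (dcap_comp hK.i0 ζ p)
  rw [← hd] at hUv hUc
  set κ := 2 ^ (d + 1) * (8 * ζ) ^ d * VU / β with hκ
  have hκ0 : 0 ≤ κ := by positivity
  -- Step B
  have hB : ∀ u ∈ pol K, ∀ J ⊆ F, (∀ p ∈ J, u ∈ U p) → (J.card : ℝ) ≤ κ := by
    intro u huK J hJ hJu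
    rcases J.eq_empty_or_nonempty with hJe | ⟨p₀, hp₀⟩
    · rw [hJe]
      simpa using hκ0
    set S := Mac (pol K) u with hS
    set σ := μ.real S with hσ
    have hSc : IsCompact S := mac_comp (pol_comp hK.i0) u
    have hcσ : ∀ p ∈ J, c p ≤ 2 ^ (d + 1) * σ := by
      intro p hp
      refine (hUc p u (hJu p hp)).trans (mul_le_mul_of_nonneg_left ?_ (by positivity))
      have e1 : μ.real (dcap K ζ p ∩ {x | (2 : ℝ) • u - x ∈ dcap K ζ p}) =
          μ.real ((fun a => u + a) ⁻¹' (dcap K ζ p ∩ {x | (2 : ℝ) • u - x ∈ dcap K ζ p})) := by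
        rw [measureReal_def, measureReal_def, measure_preimage_add]
      rw [e1]
      refine measureReal_mono ?_ hSc.measure_lt_top.ne
      rintro a ⟨h1, h2⟩
      refine ⟨h1.1, ?_⟩
      have h3 : (2 : ℝ) • u - (u + a) ∈ pol K := h2.1
      have e2 : (2 : ℝ) • u - (u + a) = u - a := by rw [two_smul]; abel
      rwa [e2] at h3
    have hσ0 : 0 < σ := by
      have h1 := hcσ p₀ hp₀
      have h2 := hβF p₀ (hJ hp₀)
      have h3 : 0 < c p₀ := by
        by_contra hcon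
        push Not at hcon
        have : c p₀ * s p₀ ≤ 0 := mul_nonpos_of_nonpos_of_nonneg hcon (hs0 p₀ (hJ hp₀)).le
        linarith
      by_contra hcon
      push Not at hcon
      have : 2 ^ (d + 1) * σ ≤ 0 := mul_nonpos_of_nonneg_of_nonpos (by positivity) hcon
      linarith
    have hSconv : Convex ℝ S := mac_conv (pol_convex K) u
    have hSB : SB S := ⟨hSc, hSconv, mac_symm, int_of_pos μ hSconv hSc hσ0⟩
    have hSU := hU S hSB
    have hPc : IsCompact (pol S) := pol_comp hSB.zero_int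
    have h4 := hA J hJ ((8 * ζ / 3) • pol S) (hPc.smul _).measure_lt_top.ne (fun p hp =>
      mth_cap hK.conv hζ (interior_subset (hF p (hJ hp))) (hUC p (hJu p hp)))
    rw [vol_smul μ (by positivity), ← hd] at h4
    have h5 : σ * ∑ p ∈ J, s p ≤ (8 * ζ) ^ d * VU := by
      have e3 : (8 * ζ) ^ d = 3 ^ d * (8 * ζ / 3) ^ d := by
        rw [← mul_pow]
        congr 1
        ring
      have e4 : (3 : ℝ) ^ d * (1 / 3) ^ d = 1 := by rw [← mul_pow]; norm_num
      calc σ * ∑ p ∈ J, s p = σ * 3 ^ d * ((1 / 3) ^ d * ∑ p ∈ J, s p) := by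
            rw [mul_assoc σ, ← mul_assoc ((3 : ℝ) ^ d), e4, one_mul]
        _ ≤ σ * 3 ^ d * ((8 * ζ / 3) ^ d * μ.real (pol S)) :=
            mul_le_mul_of_nonneg_left h4 (by positivity)
        _ = (8 * ζ) ^ d * (σ * μ.real (pol S)) := by rw [e3]; ring
        _ ≤ (8 * ζ) ^ d * VU := mul_le_mul_of_nonneg_left hSU (by positivity)
    rw [hκ, le_div_iff₀ hβ]
    calc (J.card : ℝ) * β = ∑ p ∈ J, β := by rw [Finset.sum_const, nsmul_eq_mul]
      _ ≤ ∑ p ∈ J, 2 ^ (d + 1) * (σ * s p) := by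
          refine Finset.sum_le_sum fun p hp => ?_
          calc β ≤ c p * s p := hβF p (hJ hp)
            _ ≤ 2 ^ (d + 1) * σ * s p :=
              mul_le_mul_of_nonneg_right (hcσ p hp) (hs0 p (hJ hp)).le
            _ = _ := by ring
      _ = 2 ^ (d + 1) * (σ * ∑ p ∈ J, s p) := by rw [← Finset.mul_sum, ← Finset.mul_sum]
      _ ≤ 2 ^ (d + 1) * ((8 * ζ) ^ d * VU) := mul_le_mul_of_nonneg_left h5 (by positivity)
      _ = _ := by ring
  -- Step C
  have hPc : IsCompact (pol K) := pol_comp hK.i0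
  have hC1 := mult μ F U (pol K) hPc.isClosed.measurableSet hPc.measure_lt_top.ne
    (fun p _ => hUm p) (fun p _ => (hUC p).trans fun u hu => hu.1) κ hB
  have hC : ∑ p ∈ F, c p ≤ 2 ^ (d + 1) * (κ * μ.real (pol K)) := by
    calc ∑ p ∈ F, c p ≤ ∑ p ∈ F, 2 ^ (d + 1) * μ.real (U p) :=
          Finset.sum_le_sum fun p _ => hUv p
      _ = 2 ^ (d + 1) * ∑ p ∈ F, μ.real (U p) := by rw [Finset.mul_sum]
      _ ≤ _ := mul_le_mul_of_nonneg_left hC1 (by positivity)
  have hA' : ∑ p ∈ F, s p ≤ 3 ^ d * μ.real K := by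
    have h1 := hA F (Finset.Subset.refl F) K hK.comp.measure_lt_top.ne
      (fun p hp => mth_sub hK.conv (interior_subset (hF p hp)))
    have e4 : (3 : ℝ) ^ d * (1 / 3) ^ d = 1 := by rw [← mul_pow]; norm_num
    calc ∑ p ∈ F, s p = 3 ^ d * ((1 / 3) ^ d * ∑ p ∈ F, s p) := by
          rw [← mul_assoc, e4, one_mul]
      _ ≤ _ := mul_le_mul_of_nonneg_left h1 (by positivity)
  -- Step D
  have hD : (F.card : ℝ) ^ 2 * β ≤ (∑ p ∈ F, s p) * ∑ p ∈ F, c p := by
    have h1 := Finset.sum_mul_sq_le_sq_mul_sq F (fun p => √(s p)) (fun p => √(c p))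
    have h2 : (F.card : ℝ) * √β ≤ ∑ p ∈ F, √(s p) * √(c p) := by
      rw [← nsmul_eq_mul, ← Finset.sum_const]
      refine Finset.sum_le_sum fun p hp => ?_
      rw [← Real.sqrt_mul (hs0 p hp).le]
      refine Real.sqrt_le_sqrt ?_
      rw [mul_comm]
      exact hβF p hp
    have h3 : ((F.card : ℝ) * √β) ^ 2 ≤ (∑ p ∈ F, √(s p) * √(c p)) ^ 2 :=
      pow_le_pow_left₀ (by positivity) h2 2
    rw [mul_pow, Real.sq_sqrt hβ.le] at h3
    refine h3.trans (h1.trans (le_of_eq ?_))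
    congr 1
    · exact Finset.sum_congr rfl fun p hp => Real.sq_sqrt (hs0 p hp).le
    · exact Finset.sum_congr rfl fun p _ => Real.sq_sqrt (hc0 p)
  have hsum0 : 0 ≤ ∑ p ∈ F, c p := Finset.sum_nonneg fun p _ => hc0 p
  calc (F.card : ℝ) ^ 2 * β ^ 2 = ((F.card : ℝ) ^ 2 * β) * β := by ring
    _ ≤ ((∑ p ∈ F, s p) * ∑ p ∈ F, c p) * β := mul_le_mul_of_nonneg_right hD hβ.le
    _ ≤ ((3 ^ d * μ.real K) * (2 ^ (d + 1) * (κ * μ.real (pol K)))) * β := by
        refine mul_le_mul_of_nonneg_right ?_ hβ.le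
        exact mul_le_mul hA' hC hsum0 (by positivity)
    _ = (3 ^ d * (2 ^ (d + 1) * (2 ^ (d + 1) * (8 * ζ) ^ d * VU))) *
          (μ.real K * μ.real (pol K)) := by
        rw [hκ]
        field_simp
    _ ≤ (3 ^ d * (2 ^ (d + 1) * (2 ^ (d + 1) * (8 * ζ) ^ d * VU))) * (2 ^ d * VU) :=
        mul_le_mul_of_nonneg_left hKK (by positivity)
    _ = 4 * (192 * ζ) ^ d * VU ^ 2 := by
        have e : (192 * ζ) ^ d = 3 ^ d * 2 ^ d * 2 ^ d * 2 ^ d * (8 * ζ) ^ d := by
          rw [← mul_pow, ← mul_pow, ← mul_pow, ← mul_pow]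
          congr 1
          ring
        rw [e, pow_succ]
        ring

end Pool.Agent.K3h52.HR
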