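import Pool.Agent.K3h52.HR.NetM
import Pool.Agent.K3h52.TP.BallThr

set_option autoImplicit false
set_option linter.unusedSectionVars false

/-!
From the net to a covering of `A + B`.
-/

namespace Pool.Agent.K3h52.HR

open scoped RealInnerProductSpace Pointwise
open Module MeasureTheory
open Pool.Agent.H845R2 (SB pol pol_anti pol_closed pol_convex)
open Pool.Agent.H2R2.Cov Pool.Agent.K3h76.RB Pool.Agent.K3h76.UC Pool.Agent.W396.Il

variable {V : Type*} [NormedAddCommGroup V] [InnerProductSpace ℝ V] [FiniteDimensional ℝ V]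

/-- The points of a net are put into few translates of a smaller copy. -/
theorem few {K : Set V} (hK : Bd K) (F : Finset V) (hF : ∀ p ∈ F, p ∈ K) {ρ : ℝ} (hρ : 0 < ρ)
    (k n : ℕ) (hk : F.card ≤ k)
    (hn : (TP.left ((ρ / (1 + ρ)) ^ finrank ℝ V))^[n] k = 0) :
    ∃ Y : Finset V, Y.card ≤ n ∧ ∀ p ∈ F, ∃ t ∈ Y, p - t ∈ ρ • K := by
  refine TP.greedy (fun t x : V => x - t ∈ ρ • K) _ n F (fun G hG _ => ?_) k hk hn
  obtain ⟨t, ht⟩ := exists_heavy K hK.conv hK.comp ⟨0, hK.i0⟩ G (fun x hx => hF x (hG hx))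
    (fun _ => 1) (fun _ _ => zero_le_one) ρ hρ
  refine ⟨t, ?_⟩
  rw [wt_one, Finset.sum_const, nsmul_eq_mul, mul_one] at ht
  exact ht

/-- From the net to the covering. -/
theorem lit_cov {A B : Set V} (hA : Convex ℝ A) (hAc : IsCompact A) (hB : Convex ℝ B)
    (hBc : IsCompact B) (hBn : B.Nonempty) (hd : 1 ≤ finrank ℝ V) (c : V)
    (hK : Bd {v | c + v ∈ A}) {ζ ρ : ℝ} (hρ0 : 0 < ρ) (hρ : ρ < 1 - 2 * ζ)
    (F Y : Finset V)
    (hF : ∀ x' ∈ {v | c + v ∈ A}, x' ∉ interior {v | c + v ∈ A} →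
      ∃ p ∈ F, (2 : ℝ) • ((1 - ζ) • x') - p ∈ {v | c + v ∈ A})
    (hY : ∀ p ∈ F, ∃ t ∈ Y, p - t ∈ ρ • {v | c + v ∈ A}) :
    Cov Y.card (A + B) := by
  set K : Set V := {v | c + v ∈ A} with hKdef
  have hint : ∀ v, v ∈ interior K ↔ c + v ∈ interior A := by
    intro v
    have h1 : interior K = (fun v => c + v) ⁻¹' interior A := by
      have := (Homeomorph.addLeft c).preimage_interior A
      rw [Homeomorph.coe_addLeft] at this
      rw [this]
      rfl
    rw [h1]
    rfl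
  have hAi : (interior A).Nonempty := ⟨c + 0, (hint 0).1 hK.i0⟩
  have hKi : (interior (A + B)).Nonempty := by
    obtain ⟨z, hz⟩ := hAi
    obtain ⟨b, hb⟩ := hBn
    refine ⟨z + b, ?_⟩
    have h1 : interior A + B ⊆ interior (A + B) :=
      interior_maximal (Set.add_subset_add_right interior_subset)
        (isOpen_interior.add_right)
    exact h1 (Set.add_mem_add hz hb)
  refine cover_of_lit (hA.add hB) (hAc.add hBc) hKi Y ?_
  intro x hx
  obtain ⟨a, ha, b, hb, rfl⟩ := hx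
  obtain ⟨e, he, hen⟩ := exists_ext hAc ha
  have heA : e ∈ A := he.1
  have hei : e ∉ interior A := Set.disjoint_left.1 (TP.ext_disj A hd) he
  set e' := e - c with he'
  have hce : c + e' = e := by rw [he']; abel
  have he'K : e' ∈ K := by
    show c + e' ∈ A
    rw [hce]
    exact heA
  have he'i : e' ∉ interior K := by
    rw [hint, hce]
    exact hei
  obtain ⟨p, hp, hpe⟩ := hF e' he'K he'i
  obtain ⟨t, ht, y, hy, hyt⟩ := hY p hp
  refine ⟨t, ht, fun u hu => ?_⟩
  have hua : Nml A a u := by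
    refine ⟨hu.1, fun a' ha' => ?_⟩
    have := hu.2 (a' + b) (Set.add_mem_add ha' hb)
    rw [inner_add_right, inner_add_right] at this
    linarith
  have hue := hen u hua
  have hle : ∀ v ∈ K, ⟪u, v⟫ ≤ ⟪u, e'⟫ := by
    intro v hv
    have h1 := hue.2 (c + v) hv
    rw [← hce, inner_add_right, inner_add_right] at h1
    linarith
  -- the support number is positive
  obtain ⟨ε, hε, hball⟩ := Metric.isOpen_iff.1 isOpen_interior (0 : V) hK.i0
  have h2 : (ε / 2) • u ∈ K := by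
    apply interior_subset
    apply hball
    rw [Metric.mem_ball, dist_zero_right, norm_smul, hu.1, mul_one,
      Real.norm_of_nonneg (by positivity)]
    linarith
  have h3 := hle _ h2
  rw [inner_smul_right, real_inner_self_eq_norm_sq, hu.1] at h3
  have hh : 0 < ⟪u, e'⟫ := by linarith
  have h4 := hle _ hpe
  rw [inner_sub_right, inner_smul_right, inner_smul_right] at h4
  have h5 := hle _ hy
  have h6 : ⟪u, p⟫ - ⟪u, t⟫ = ρ * ⟪u, y⟫ := by
    rw [← inner_sub_right, ← hyt, inner_smul_right]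
  have h7 := mul_le_mul_of_nonneg_left h5 hρ0.le
  rw [real_inner_comm]
  nlinarith

variable [MeasurableSpace V] [BorelSpace V] (μ : Measure V) [μ.IsAddHaarMeasure]

/-- A good choice of the origin. -/
theorem origin {A : Set V} (hA : Convex ℝ A) (hAc : IsCompact A) (hAi : (interior A).Nonempty)
    (VU : ℝ) (hU : ∀ S : Set V, SB S → μ.real S * μ.real (pol S) ≤ VU) :
    ∃ c : V, Bd {v | c + v ∈ A} ∧
      μ.real {v | c + v ∈ A} * μ.real (pol {v | c + v ∈ A}) ≤ 2 ^ finrank ℝ V * VU := by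
  obtain ⟨c, hc⟩ := TP.exists_sym μ A hA hAc hAi
  have hAr := TP.real_pos' μ hAc hAi
  set d := finrank ℝ V with hd
  set S := Mac A c with hS
  have hSc : IsCompact S := mac_comp hAc c
  have hSconv : Convex ℝ S := mac_conv hA c
  have hSr : μ.real S = μ.real (A ∩ {x | (2 : ℝ) • c - x ∈ A}) := by
    have h1 : S = (fun v => c + v) ⁻¹' (A ∩ {x | (2 : ℝ) • c - x ∈ A}) := by
      ext v
      simp only [hS, Mac, Set.mem_ofPred_eq, Set.mem_preimage, Set.mem_inter_iff]
      have : (2 : ℝ) • c - (c + v) = c - v := by rw [two_smul]; abel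
      rw [this]
    rw [h1, measureReal_def, measure_preimage_add]
    rfl
  rw [← hSr] at hc
  have hSpos : 0 < μ.real S := by
    by_contra hcon
    push Not at hcon
    have h2 : (2 : ℝ) ^ d * μ.real S ≤ 0 :=
      mul_nonpos_of_nonneg_of_nonpos (by positivity) hcon
    linarith
  have hSB : SB S := ⟨hSc, hSconv, mac_symm, int_of_pos μ hSconv hSc hSpos⟩
  have hSK : S ⊆ {v | c + v ∈ A} := fun v hv => hv.1
  have hKc : IsCompact {v | c + v ∈ A} := by
    refine (hAc.image (f := fun y => y - c) (by fun_prop)).of_isClosed_subset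
      (hAc.isClosed.preimage (by fun_prop)) ?_
    intro a ha
    exact ⟨c + a, ha, by simp⟩
  refine ⟨c, ⟨hKc, hA.translate_preimage_right c, interior_mono hSK hSB.zero_int⟩, ?_⟩
  have h1 : μ.real {v | c + v ∈ A} = μ.real A := by
    have e : {v | c + v ∈ A} = (fun v => c + v) ⁻¹' A := rfl
    rw [e, measureReal_def, measure_preimage_add]
    rfl
  have h2 : μ.real (pol {v | c + v ∈ A}) ≤ μ.real (pol S) :=
    measureReal_mono (pol_anti hSK) (pol_comp hSB.zero_int).measure_lt_top.ne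
  have h3 := hU S hSB
  rw [h1]
  calc μ.real A * μ.real (pol {v | c + v ∈ A}) ≤ (2 ^ d * μ.real S) * μ.real (pol S) :=
        mul_le_mul hc h2 measureReal_nonneg (by positivity)
    _ = 2 ^ d * (μ.real S * μ.real (pol S)) := by ring
    _ ≤ 2 ^ d * VU := mul_le_mul_of_nonneg_left h3 (by positivity)

/-- **Covering.** -/
theorem cov_main {A B : Set V} (hA : Convex ℝ A) (hAc : IsCompact A)
    (hAi : (interior A).Nonempty) (hB : Convex ℝ B) (hBc : IsCompact B) (hBn : B.Nonempty)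
    (hd : 1 ≤ finrank ℝ V) (VL VU : ℝ) (hVL : 0 < VL)
    (hL : ∀ S : Set V, SB S → VL ≤ μ.real S * μ.real (pol S))
    (hU : ∀ S : Set V, SB S → μ.real S * μ.real (pol S) ≤ VU) {ζ ρ : ℝ} (hζ : 0 < ζ)
    (hρ0 : 0 < ρ) (hρ : ρ < 1 - 2 * ζ) (k n : ℕ)
    (hk : 2 * (1 / ζ + 1) * (VU / VL) * √(12288 / ζ) ^ finrank ℝ V < k + 1)
    (hn : (TP.left ((ρ / (1 + ρ)) ^ finrank ℝ V))^[n] k = 0) :
    ∃ T : Finset V, A + B ⊆ ⋃ t ∈ T, (fun x => t + x) '' interior (A + B) ∧ T.card ≤ n := by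
  obtain ⟨c, hK, hKK⟩ := origin μ hA hAc hAi VU hU
  have hζ1 : ζ < 1 := by linarith
  obtain ⟨F, hFc, hFK, hF⟩ := net hK hζ hζ1 _
    (fun F hF => good_card μ hK hζ hζ1 VL VU hVL hL hU hKK F hF)
  have hFk : F.card ≤ k := by
    have : (F.card : ℝ) < k + 1 := lt_of_le_of_lt hFc hk
    have h2 : F.card < k + 1 := by exact_mod_cast this
    omega
  obtain ⟨Y, hYn, hY⟩ := few hK F hFK hρ0 k n hFk hn
  obtain ⟨T, hT, hcov⟩ := lit_cov hA hAc hB hBc hBn hd c hK hρ0 hρ F Y hF hY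
  exact ⟨T, hcov, hT.trans hYn⟩

end Pool.Agent.K3h52.HR
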