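import Pool.Agent.K3h52.HR.Count

set_option autoImplicit false
set_option linter.unusedSectionVars false

/-!
The net of points near the boundary.
-/

namespace Pool.Agent.K3h52.HR

open scoped RealInnerProductSpace Pointwise
open Module MeasureTheory
open Pool.Agent.H845R2 (SB pol pol_anti pol_closed pol_convex)

variable {V : Type*} [NormedAddCommGroup V] [InnerProductSpace ℝ V] [FiniteDimensional ℝ V]

/-- A supporting functional at a boundary point. -/
theorem support {K : Set V} (hK : Bd K) {x : V} (hxi : x ∉ interior K) :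
    ∃ u ∈ pol K, ⟪x, u⟫ = 1 ∨ x ∉ K := by
  by_cases hx : x ∈ K
  · obtain ⟨f, hf⟩ := geometric_hahn_banach_open_point hK.conv.interior isOpen_interior hxi
    have h0 : 0 < f x := by
      have := hf 0 hK.i0
      simpa using this
    have hle : ∀ y ∈ K, f y ≤ f x := by
      intro y hy
      have h1 : y ∈ closure (interior K) := by
        rw [hK.conv.closure_interior_eq_closure_of_nonempty_interior ⟨0, hK.i0⟩]
        exact subset_closure hy
      have h2 : closure (interior K) ⊆ {z | f z ≤ f x} :=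
        closure_minimal (fun z hz => (hf z hz).le) (isClosed_le f.continuous continuous_const)
      exact h2 h1
    set w := (InnerProductSpace.toDual ℝ V).symm f with hw
    have hfw : ∀ z, f z = ⟪z, w⟫ := by
      intro z
      rw [hw, real_inner_comm, InnerProductSpace.toDual_symm_apply]
    refine ⟨(f x)⁻¹ • w, ?_, Or.inl ?_⟩
    · intro y hy
      rw [inner_smul_right, ← hfw, inv_mul_le_iff₀ h0, mul_one]
      exact hle y hy
    · rw [inner_smul_right, ← hfw, inv_mul_cancel₀ h0.ne']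
  · exact ⟨0, zero_mem_pol K, Or.inr hx⟩

/-- Points of the shrunken boundary with disjoint regions. -/
def Good (K : Set V) (ζ : ℝ) (F : Finset V) : Prop :=
  (∀ p ∈ F, ∃ x' ∈ K, x' ∉ interior K ∧ p = (1 - ζ) • x') ∧
    ∀ p ∈ F, ∀ q ∈ F, p ≠ q → Disjoint (Mth K p) (Mth K q)

theorem net {K : Set V} (hK : Bd K) {ζ : ℝ} (hζ : 0 < ζ) (hζ1 : ζ < 1) (N : ℝ)
    (hN : ∀ F : Finset V, Good K ζ F → (F.card : ℝ) ≤ N) :
    ∃ F : Finset V, (F.card : ℝ) ≤ N ∧ (∀ p ∈ F, p ∈ K) ∧
      ∀ x' ∈ K, x' ∉ interior K → ∃ p ∈ F, (2 : ℝ) • ((1 - ζ) • x') - p ∈ K := by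
  classical
  borelize V
  let M : Set ℕ := {n | ∃ S, Good K ζ S ∧ S.card = n}
  have hMne : M.Nonempty := ⟨0, ∅, ⟨by simp, by simp⟩, rfl⟩
  have hMb : BddAbove M := by
    refine ⟨⌊N⌋₊, ?_⟩
    rintro n ⟨S, hS, rfl⟩
    exact Nat.le_floor (hN S hS)
  obtain ⟨F, hF, hcard⟩ := Nat.sSup_mem hMne hMb
  refine ⟨F, hN F hF, ?_, ?_⟩
  · intro p hp
    obtain ⟨x', hx', -, rfl⟩ := hF.1 p hp
    exact hK.conv.smul_mem_of_zero_mem hK.zero hx' ⟨by linarith, by linarith⟩
  · intro x' hx' hxi
    by_contra hcon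
    push Not at hcon
    set x := (1 - ζ) • x' with hx
    have hdis : ∀ p ∈ F, Disjoint (Mth K x) (Mth K p) := by
      intro p hp
      rw [Set.disjoint_left]
      intro z hz hz'
      exact hcon p hp (mth_meet hK.conv hz hz')
    have hxF : x ∉ F := by
      intro h
      have h1 := hcon x h
      apply h1
      have e : (2 : ℝ) • x - x = x := by rw [two_smul]; abel
      rw [e]
      exact hK.conv.smul_mem_of_zero_mem hK.zero hx' ⟨by linarith, by linarith⟩
    have hG : Good K ζ (insert x F) := by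
      constructor
      · intro p hp
        rcases Finset.mem_insert.mp hp with rfl | hp
        · exact ⟨x', hx', hxi, hx⟩
        · exact hF.1 p hp
      · intro p hp q hq hne
        rcases Finset.mem_insert.mp hp with h1 | hp <;> rcases Finset.mem_insert.mp hq with h2 | hq
        · exact absurd (h1.trans h2.symm) hne
        · rw [h1]; exact hdis q hq
        · rw [h2]; exact (hdis p hp).symm
        · exact hF.2 p hp q hq hne
    have hle : (insert x F).card ≤ sSup M := le_csSup hMb ⟨_, hG, rfl⟩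
    rw [Finset.card_insert_of_notMem hxF] at hle
    omega

variable [MeasurableSpace V] [BorelSpace V] (μ : Measure V) [μ.IsAddHaarMeasure]

/-- The number of points. -/
theorem good_card {K : Set V} (hK : Bd K) {ζ : ℝ} (hζ : 0 < ζ) (hζ1 : ζ < 1) (VL VU : ℝ)
    (hVL : 0 < VL) (hL : ∀ S : Set V, SB S → VL ≤ μ.real S * μ.real (pol S))
    (hU : ∀ S : Set V, SB S → μ.real S * μ.real (pol S) ≤ VU)
    (hKK : μ.real K * μ.real (pol K) ≤ 2 ^ finrank ℝ V * VU) (F : Finset V) (hF : Good K ζ F) :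
    (F.card : ℝ) ≤ 2 * (1 / ζ + 1) * (VU / VL) * √(12288 / ζ) ^ finrank ℝ V := by
  set d := finrank ℝ V with hd
  set β := VL / ((1 / ζ + 1) * (8 / ζ) ^ d) with hβ
  have hβ0 : 0 < β := by positivity
  have hVU : 0 ≤ VU := by
    have h1 : 0 ≤ μ.real K * μ.real (pol K) := by positivity
    by_contra hcon
    push Not at hcon
    have : (2 : ℝ) ^ d * VU < 0 := mul_neg_of_pos_of_neg (by positivity) hcon
    linarith
  have hFi : ∀ p ∈ F, p ∈ interior K := by
    intro p hp
    obtain ⟨x', hx', -, rfl⟩ := hF.1 p hp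
    have := hK.conv.combo_self_interior_mem_interior hx' hK.i0 (by linarith : 0 ≤ 1 - ζ) hζ (by ring)
    rwa [smul_zero, add_zero] at this
  have hβF : ∀ p ∈ F, β ≤ μ.real (dcap K ζ p) * μ.real (Mac K p) := by
    intro p hp
    obtain ⟨x', hx', hxi, rfl⟩ := hF.1 p hp
    obtain ⟨u₀, hu₀, h1⟩ := support hK hxi
    rcases h1 with h1 | h1
    · have h2 := beta μ hK hx' hu₀ h1 hζ hζ1 VL hL
      rw [hβ, div_le_iff₀ (by positivity)]
      rw [← hd] at h2
      linarith
    · exact absurd hx' h1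
  have h := count μ hK hζ F hFi hF.2 β hβ0 hβF VU hU hKK
  rw [← hd] at h
  have h2 : (F.card : ℝ) ^ 2 ≤
      (2 * (1 / ζ + 1) * (VU / VL) * √(12288 / ζ) ^ d) ^ 2 := by
    have h3 : (F.card : ℝ) ^ 2 ≤ 4 * (192 * ζ) ^ d * VU ^ 2 / β ^ 2 := by
      rw [le_div_iff₀ (by positivity)]
      exact h
    refine h3.trans (le_of_eq ?_)
    have e1 : (2 * (1 / ζ + 1) * (VU / VL) * √(12288 / ζ) ^ d) ^ 2 =
        4 * (1 / ζ + 1) ^ 2 * (VU / VL) ^ 2 * (12288 / ζ) ^ d := by
      have e2 : (√(12288 / ζ) ^ d) ^ 2 = (12288 / ζ) ^ d := by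
        rw [← pow_mul, mul_comm d 2, pow_mul, Real.sq_sqrt (by positivity)]
      rw [mul_pow, e2]
      ring
    rw [e1, hβ]
    have e3 : (12288 / ζ) ^ d = (192 * ζ) ^ d * ((8 / ζ) ^ d) ^ 2 := by
      rw [← pow_mul, mul_comm d 2, pow_mul, ← mul_pow]
      congr 1
      field_simp
      norm_num
    rw [e3]
    field_simp
  exact le_of_sq_le_sq h2 (by positivity)

end Pool.Agent.K3h52.HR
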