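import Pool.Agent.K3h52.HR.Lit
import Pool.Agent.K3h52.TP.Gen
import Pool.Agent.H845R3.FN3

set_option autoImplicit false

/-!
Constants and the final estimate.
-/

namespace Pool.Agent.K3h52.HR

open scoped RealInnerProductSpace Pointwise ENNReal
open Module MeasureTheory Real
open Pool.Agent.H845R2 (SB pol MV)
open Pool.Agent.K3h52.TP (left exists_steps all_gen log_ge)

/-- The volume product from below. -/
theorem vp_lower (d : ℕ) (S : Set (EuclideanSpace ℝ (Fin d))) (hS : SB S) :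
    3.58 ^ d / (d.factorial : ℝ) ≤
      (volume : Measure (EuclideanSpace ℝ (Fin d))).real S *
        (volume : Measure (EuclideanSpace ℝ (Fin d))).real (pol S) := by
  have h1 := Pool.Agent.H845R3.SB_improved hS
  have hfr : finrank ℝ (EuclideanSpace ℝ (Fin d)) = d := by simp
  rw [hfr] at h1
  have hMf : MV S ≠ ⊤ := ENNReal.mul_ne_top hS.comp.measure_lt_top.ne
    hS.pol.comp.measure_lt_top.ne
  have h2 := ENNReal.toReal_mono (ENNReal.mul_ne_top (ENNReal.natCast_ne_top _) hMf) h1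
  rw [ENNReal.toReal_ofReal (by positivity), ENNReal.toReal_mul, ENNReal.toReal_natCast] at h2
  have h3 : (MV S).toReal = (volume : Measure (EuclideanSpace ℝ (Fin d))).real S *
        (volume : Measure (EuclideanSpace ℝ (Fin d))).real (pol S) := by
    unfold MV
    rw [ENNReal.toReal_mul]
    rfl
  rw [h3] at h2
  have h4 : (3.58 : ℝ) ≤ √3 * √(√3) * π / 2 := by
    have := Pool.Agent.H845R3.const_gt
    rw [← Pool.Agent.H845R3.const_eq] at this
    exact this.le
  have h5 : (3.58 : ℝ) ^ d ≤ (√3 * √(√3) * π / 2) ^ d := pow_le_pow_left₀ (by norm_num) h4 d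
  rw [div_le_iff₀ (by exact_mod_cast Nat.factorial_pos d)]
  rw [mul_comm]
  exact h5.trans h2

/-- `d! ≤ e d (d / e)ᵈ` -/
theorem fact_le (d : ℕ) (hd : 1 ≤ d) : (d.factorial : ℝ) ≤ exp 1 * d * (d / exp 1) ^ d := by
  induction d, hd using Nat.le_induction with
  | base => simp
  | succ n hn ih =>
    have hn0 : (0 : ℝ) < n := by exact_mod_cast hn
    rw [Nat.factorial_succ]
    push_cast
    have h1 : (n : ℝ) * (n / exp 1) ^ n ≤ ((n + 1) / exp 1) ^ (n + 1) := by
      have h2 : (n : ℝ) / (n + 1) ≤ exp (-(1 / (n + 1))) := by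
        have := Real.add_one_le_exp (-(1 / ((n : ℝ) + 1)))
        have e : -(1 / ((n : ℝ) + 1)) + 1 = n / (n + 1) := by field_simp; ring
        rwa [e] at this
      have h3 : ((n : ℝ) / (n + 1)) ^ (n + 1) ≤ exp (-1) := by
        calc ((n : ℝ) / (n + 1)) ^ (n + 1) ≤ exp (-(1 / (n + 1))) ^ (n + 1) :=
              pow_le_pow_left₀ (by positivity) h2 _
          _ = exp (-1) := by
              rw [← Real.exp_nat_mul]
              congr 1
              push_cast
              field_simp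
      rw [div_pow, div_le_iff₀ (by positivity)] at h3
      rw [div_pow, div_pow]
      rw [Real.exp_neg] at h3
      have he : 0 < exp 1 := exp_pos 1
      have h4 : (n : ℝ) * (n ^ n / exp 1 ^ n) = n ^ (n + 1) / exp 1 ^ n := by
        rw [pow_succ]; ring
      rw [h4, div_le_div_iff₀ (by positivity) (by positivity), pow_succ (exp 1)]
      have h5 : (n : ℝ) ^ (n + 1) * exp 1 ≤ ((n : ℝ) + 1) ^ (n + 1) := by
        calc (n : ℝ) ^ (n + 1) * exp 1 ≤ ((exp 1)⁻¹ * (n + 1) ^ (n + 1)) * exp 1 :=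
              mul_le_mul_of_nonneg_right h3 he.le
          _ = (n + 1) ^ (n + 1) := by field_simp
      calc (n : ℝ) ^ (n + 1) * (exp 1 ^ n * exp 1) = ((n : ℝ) ^ (n + 1) * exp 1) * exp 1 ^ n := by
            ring
        _ ≤ ((n : ℝ) + 1) ^ (n + 1) * exp 1 ^ n :=
            mul_le_mul_of_nonneg_right h5 (by positivity)
    calc ((n : ℝ) + 1) * n.factorial ≤ (n + 1) * (exp 1 * n * (n / exp 1) ^ n) :=
          mul_le_mul_of_nonneg_left ih (by positivity)
      _ = exp 1 * (n + 1) * (n * (n / exp 1) ^ n) := by ring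
      _ ≤ exp 1 * (n + 1) * ((n + 1) / exp 1) ^ (n + 1) :=
          mul_le_mul_of_nonneg_left h1 (by positivity)

theorem log_le (x : ℝ) (hx : 0 < x) (a b : ℕ) (hb : 0 < b)
    (h : x ^ b ≤ (2.7182818283 : ℝ) ^ a) : log x ≤ (a : ℝ) / b := by
  rw [le_div_iff₀ (by exact_mod_cast hb)]
  have h1 : x ^ b ≤ exp (a : ℝ) := by
    refine h.trans ?_
    rw [← Real.exp_one_pow]
    exact pow_le_pow_left₀ (by norm_num) Real.exp_one_gt_d9.le a
  have h2 := Real.log_le_log (by positivity) h1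
  rw [log_exp, log_pow] at h2
  linarith

/-- The ratio of the two bounds for the volume product. -/
theorem ratio (d : ℕ) (hd : 1 ≤ d) :
    (2 * π * exp 1 / d) ^ d / (3.58 ^ d / (d.factorial : ℝ)) ≤ exp 1 * d * 1.7551 ^ d := by
  have hd0 : (0 : ℝ) < d := by exact_mod_cast hd
  have h1 := fact_le d hd
  have h2 : (2 * π * exp 1 / d) ^ d / (3.58 ^ d / (d.factorial : ℝ)) =
      (2 * π * exp 1 / d / 3.58) ^ d * d.factorial := by
    rw [div_pow _ (3.58 : ℝ)]
    field_simp
  rw [h2]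
  calc (2 * π * exp 1 / d / 3.58) ^ d * d.factorial
      ≤ (2 * π * exp 1 / d / 3.58) ^ d * (exp 1 * d * (d / exp 1) ^ d) :=
        mul_le_mul_of_nonneg_left h1 (by positivity)
    _ = exp 1 * d * (2 * π / 3.58) ^ d := by
        have : (2 * π / 3.58) ^ d = (2 * π * exp 1 / d / 3.58) ^ d * (d / exp 1) ^ d := by
          rw [← mul_pow]
          congr 1
          field_simp
        rw [this]
        ring
    _ ≤ exp 1 * d * 1.7551 ^ d := by
        refine mul_le_mul_of_nonneg_left ?_ (by positivity)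
        refine pow_le_pow_left₀ (by positivity) ?_ d
        rw [div_le_iff₀ (by norm_num)]
        have := Real.pi_lt_d6
        linarith

/-- The final estimate. -/
theorem steps6 (d : ℕ) (hd : 3 ≤ d) (h8 : 8 ≤ log d + log (log d)) :
    ∃ ζ ρ : ℝ, 0 < ζ ∧ 0 < ρ ∧ ρ < 1 - 2 * ζ ∧ ∃ k n : ℕ,
      2 * (1 / ζ + 1) * ((2 * π * exp 1 / d) ^ d / (3.58 ^ d / (d.factorial : ℝ))) *
        √(12288 / ζ) ^ d < k + 1 ∧
      (left ((ρ / (1 + ρ)) ^ d))^[n] k = 0 ∧
      (n : ℝ) ≤ 2 ^ d * (d * log d / 2 + d * log (log d) / 2 + 6 * d) := by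
  have hd3 : (3 : ℝ) ≤ d := by exact_mod_cast hd
  have hd0 : (0 : ℝ) < d := by linarith
  set l := log (d : ℝ) with hl
  have hl0' : 0 < l := Real.log_pos (by linarith)
  set m := log l with hm
  have hl1 : 6.1 ≤ l := by
    by_contra hcon
    push Not at hcon
    have h1 : m ≤ log 6.1 := Real.log_le_log hl0' hcon.le
    have h2 := log_le 6.1 (by norm_num) 181 100 (by norm_num) (by norm_num)
    have : ((181 : ℕ) : ℝ) / (100 : ℕ) = 1.81 := by norm_num
    linarith
  have hl0 : 0 < l := by linarith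
  have hm0 : 0 ≤ m := Real.log_nonneg (by linarith)
  have hm1 : m ≤ 0.3679 * l := by
    have h1 := Real.log_le_sub_one_of_pos (show 0 < l / exp 1 by positivity)
    rw [Real.log_div hl0.ne' (exp_pos 1).ne', log_exp] at h1
    have h2 : l / exp 1 ≤ 0.3679 * l := by
      rw [div_le_iff₀ (exp_pos 1)]
      have := Real.exp_one_gt_d9
      nlinarith
    linarith
  have hd1 : (445 : ℝ) ≤ d := by
    have h1 := log_le 445 (by norm_num) 61 10 (by norm_num) (by norm_num)
    have h2 : log 445 ≤ l := by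
      have : ((61 : ℕ) : ℝ) / (10 : ℕ) = 6.1 := by norm_num
      linarith
    exact (Real.log_le_log_iff (by norm_num) hd0).1 h2
  have hl2 : l ≤ 0.0138 * d := by
    have h1 := Real.log_le_sub_one_of_pos (show 0 < (d : ℝ) / 445 by positivity)
    rw [Real.log_div hd0.ne' (by norm_num)] at h1
    have h2 := log_le 445 (by norm_num) 61 10 (by norm_num) (by norm_num)
    have : ((61 : ℕ) : ℝ) / (10 : ℕ) = 6.1 := by norm_num
    linarith
  set ζ := 1 / (4 * ((d : ℝ) * l)) with hζ
  have hdl : 2714 ≤ (d : ℝ) * l := by nlinarith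
  have hζ0 : 0 < ζ := by positivity
  have hζ1 : ζ ≤ 0.0001 := by
    rw [hζ, div_le_iff₀ (by positivity)]
    linarith
  set ρ := 1 - 5 / 2 * ζ with hρ
  have hρ0 : 0 < ρ := by linarith
  set p := (ρ / (1 + ρ)) ^ d with hp
  have hp0 : 0 < p := by positivity
  have hp2 : p ≤ (1 / 2) ^ d := by
    refine pow_le_pow_left₀ (by positivity) ?_ d
    rw [div_le_iff₀ (by positivity)]
    linarith
  have hp1 : p ≤ 1 := hp2.trans (pow_le_one₀ (by norm_num) (by norm_num))
  set N₀ := 2 * (1 / ζ + 1) * ((2 * π * exp 1 / d) ^ d / (3.58 ^ d / (d.factorial : ℝ))) *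
        √(12288 / ζ) ^ d with hN₀
  have hN0 : 0 ≤ N₀ := by positivity
  set Λ := (d : ℝ) * (l / 2 + m / 2 + 5.32) with hΛ
  have hΛ0 : 0 ≤ Λ := by positivity
  have hpN : p * N₀ ≤ exp Λ := by
    have h1 := ratio d (by omega)
    have e1 : (1 / 2 : ℝ) ^ d * N₀ ≤ 2 * (1 / ζ + 1) * (exp 1 * d) *
        (1.7551 / 2 * √(12288 / ζ)) ^ d := by
      rw [hN₀]
      calc (1 / 2 : ℝ) ^ d * (2 * (1 / ζ + 1) *
            ((2 * π * exp 1 / d) ^ d / (3.58 ^ d / (d.factorial : ℝ))) * √(12288 / ζ) ^ d)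
          = (2 * (1 / ζ + 1) * ((1 / 2 : ℝ) ^ d * √(12288 / ζ) ^ d)) *
            ((2 * π * exp 1 / d) ^ d / (3.58 ^ d / (d.factorial : ℝ))) := by ring
        _ ≤ (2 * (1 / ζ + 1) * ((1 / 2 : ℝ) ^ d * √(12288 / ζ) ^ d)) *
            (exp 1 * d * 1.7551 ^ d) := mul_le_mul_of_nonneg_left h1 (by positivity)
        _ = 2 * (1 / ζ + 1) * (exp 1 * d) * (1.7551 / 2 * √(12288 / ζ)) ^ d := by
          have : (1.7551 / 2 * √(12288 / ζ)) ^ d =
              1.7551 ^ d * (1 / 2 : ℝ) ^ d * √(12288 / ζ) ^ d := by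
            rw [← mul_pow, ← mul_pow]
            congr 1
            ring
          rw [this]
          ring
    have e2 : 1.7551 / 2 * √(12288 / ζ) ≤ exp (l / 2 + m / 2 + 5.275) := by
      have h2 : √(12288 / ζ) = √49152 * exp (l / 2 + m / 2) := by
        have h3 : 12288 / ζ = 49152 * (exp (l / 2 + m / 2)) ^ 2 := by
          have h4 : (exp (l / 2 + m / 2)) ^ 2 = d * l := by
            rw [← Real.exp_nat_mul]
            have : ((2 : ℕ) : ℝ) * (l / 2 + m / 2) = l + m := by push_cast; ring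
            rw [this, exp_add, hl, exp_log hd0, hm, exp_log hl0]
          rw [h4, hζ]
          field_simp
          norm_num
        rw [h3, Real.sqrt_mul (by norm_num), Real.sqrt_sq (exp_pos _).le]
      have h5 : √49152 ≤ 221.71 := by
        rw [Real.sqrt_le_left (by norm_num)]
        norm_num
      have h6 : (194.6 : ℝ) ≤ exp 5.275 := by
        have h7 := log_le 194.6 (by norm_num) 211 40 (by norm_num) (by norm_num)
        have : ((211 : ℕ) : ℝ) / (40 : ℕ) = 5.275 := by norm_num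
        rw [this] at h7
        rw [← Real.log_le_iff_le_exp (by norm_num)]
        exact h7
      rw [h2, exp_add (l / 2 + m / 2)]
      have h8 : 0 < exp (l / 2 + m / 2) := exp_pos _
      calc 1.7551 / 2 * (√49152 * exp (l / 2 + m / 2))
          = (1.7551 / 2 * √49152) * exp (l / 2 + m / 2) := by ring
        _ ≤ 194.6 * exp (l / 2 + m / 2) := by
            refine mul_le_mul_of_nonneg_right ?_ h8.le
            nlinarith
        _ ≤ exp (l / 2 + m / 2) * exp 5.275 := by
            rw [mul_comm]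
            exact mul_le_mul_of_nonneg_left h6 h8.le
    have e3 : 2 * (1 / ζ + 1) * (exp 1 * d) ≤ exp (0.045 * d) := by
      have h2 : 1 / ζ + 1 ≤ 4.001 * (d * l) := by
        rw [hζ, one_div_one_div]
        linarith
      have h3 : 2 * (1 / ζ + 1) * (exp 1 * d) ≤ exp 3.1 * exp (2 * l + m) := by
        have h4 : exp (2 * l + m) = d * d * l := by
          rw [exp_add, two_mul, exp_add, hl, exp_log hd0, hm, exp_log hl0]
        have h5 : (21.8 : ℝ) ≤ exp 3.1 := by
          have h7 := log_le 21.8 (by norm_num) 31 10 (by norm_num) (by norm_num)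
          have : ((31 : ℕ) : ℝ) / (10 : ℕ) = 3.1 := by norm_num
          rw [this] at h7
          rw [← Real.log_le_iff_le_exp (by norm_num)]
          exact h7
        rw [h4]
        have he := Real.exp_one_lt_d9
        have h6 : 2 * (1 / ζ + 1) * (exp 1 * d) ≤ 2 * (4.001 * (d * l)) * (2.7182818286 * d) := by
          gcongr
        refine h6.trans ?_
        have h7 : 0 ≤ (d : ℝ) * d * l := by positivity
        nlinarith
      refine h3.trans ?_
      rw [← exp_add]
      refine Real.exp_le_exp.mpr ?_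
      linarith
    calc p * N₀ ≤ (1 / 2) ^ d * N₀ := mul_le_mul_of_nonneg_right hp2 hN0
      _ ≤ 2 * (1 / ζ + 1) * (exp 1 * d) * (1.7551 / 2 * √(12288 / ζ)) ^ d := e1
      _ ≤ exp (0.045 * d) * exp (l / 2 + m / 2 + 5.275) ^ d :=
          mul_le_mul e3 (pow_le_pow_left₀ (by positivity) e2 d) (by positivity) (exp_pos _).le
      _ = exp Λ := by
          rw [← Real.exp_nat_mul, ← exp_add, hΛ]
          congr 1
          ring
  have hpk : p * (⌊N₀⌋₊ : ℝ) ≤ exp Λ :=
    (mul_le_mul_of_nonneg_left (Nat.floor_le hN0) hp0.le).trans hpN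
  obtain ⟨n, hn, hnle⟩ := exists_steps hp0 hp1 ⌊N₀⌋₊ Λ hΛ0 hpk
  refine ⟨ζ, ρ, hζ0, hρ0, by linarith, ⌊N₀⌋₊, n, Nat.lt_floor_add_one _, hn, hnle.trans ?_⟩
  -- the final inequality
  set δ := 0.3127 / l with hδ
  have hδ0 : 0 < δ := by positivity
  have hδ2 : δ ≤ 0.06 := by
    rw [hδ, div_le_iff₀ hl0]
    linarith
  have hpinv : 1 / p ≤ 2 ^ d / (1 - δ) := by
    have h1 : 1 / p = 2 ^ d * (1 + (1 - ρ) / (2 * ρ)) ^ d := by
      rw [hp, ← mul_pow, ← one_div_pow]
      congr 1
      field_simp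
      ring
    have h2 : (1 + (1 - ρ) / (2 * ρ)) ^ d ≤ exp δ := by
      have h10 : 0 ≤ (1 - ρ) / (2 * ρ) := div_nonneg (by linarith) (by linarith)
      calc (1 + (1 - ρ) / (2 * ρ)) ^ d ≤ exp ((1 - ρ) / (2 * ρ)) ^ d := by
            refine pow_le_pow_left₀ (by positivity) ?_ d
            have := Real.add_one_le_exp ((1 - ρ) / (2 * ρ))
            linarith
        _ = exp (d * ((1 - ρ) / (2 * ρ))) := by rw [← Real.exp_nat_mul]
        _ ≤ exp δ := by
            refine Real.exp_le_exp.mpr ?_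
            have e1 : (1 - ρ) = 5 / 2 * ζ := by rw [hρ]; ring
            have e2 : (d : ℝ) * ((1 - ρ) / (2 * ρ)) = 5 / 16 / (l * ρ) := by
              rw [e1, hζ]
              field_simp
              norm_num
            rw [e2, hδ, div_le_div_iff₀ (by positivity) hl0]
            have h11 : 0.9997 ≤ ρ := by rw [hρ]; linarith
            nlinarith
    have h3 : exp δ ≤ 1 / (1 - δ) := Real.exp_bound_div_one_sub_of_interval hδ0.le (by linarith)
    have e4 : 2 ^ d / (1 - δ) = 2 ^ d * (1 / (1 - δ)) := by ring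
    rw [h1, e4]
    exact mul_le_mul_of_nonneg_left (h2.trans h3) (by positivity)
  have hδ3 : 0 < 1 - δ := by linarith
  have h2d0 : (0 : ℝ) < 2 ^ d := by positivity
  have hmain : (1 - δ) / 2 ^ d + (1 + Λ) ≤ (1 - δ) * (d * (l / 2 + m / 2 + 6)) := by
    have h1 : (1 - δ) / 2 ^ d ≤ 1 := by
      rw [div_le_one h2d0]
      have : (1 : ℝ) ≤ 2 ^ d := one_le_pow₀ (by norm_num)
      linarith
    have h2 : δ * (l / 2 + m / 2 + 6) ≤ 0.53 := by
      have h4 : (l / 2 + m / 2 + 6) / l ≤ 1.668 := by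
        rw [div_le_iff₀ hl0]
        linarith
      calc δ * (l / 2 + m / 2 + 6) = 0.3127 * ((l / 2 + m / 2 + 6) / l) := by rw [hδ]; ring
        _ ≤ 0.3127 * 1.668 := mul_le_mul_of_nonneg_left h4 (by norm_num)
        _ ≤ 0.53 := by norm_num
    have h6 := mul_le_mul_of_nonneg_left h2 hd0.le
    have e5 : (1 - δ) * (d * (l / 2 + m / 2 + 6)) =
        d * (l / 2 + m / 2 + 6) - d * (δ * (l / 2 + m / 2 + 6)) := by ring
    rw [e5, hΛ]
    linarith
  have h9 : 1 + (1 + Λ) / p ≤ 1 + 2 ^ d / (1 - δ) * (1 + Λ) := by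
    have : (1 + Λ) / p = 1 / p * (1 + Λ) := by ring
    rw [this]
    have := mul_le_mul_of_nonneg_right hpinv (show 0 ≤ 1 + Λ by linarith)
    linarith
  refine h9.trans ?_
  have h10 : 1 + 2 ^ d / (1 - δ) * (1 + Λ) = 2 ^ d / (1 - δ) * ((1 - δ) / 2 ^ d + (1 + Λ)) := by
    field_simp
  rw [h10]
  calc 2 ^ d / (1 - δ) * ((1 - δ) / 2 ^ d + (1 + Λ))
      ≤ 2 ^ d / (1 - δ) * ((1 - δ) * (d * (l / 2 + m / 2 + 6))) :=
        mul_le_mul_of_nonneg_left hmain (by positivity)
    _ = 2 ^ d * (d * l / 2 + d * m / 2 + 6 * d) := by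
        field_simp

/-- **Main theorem.** -/
theorem main (d : ℕ) (hd : 3 ≤ d) (A B : Set (EuclideanSpace ℝ (Fin d))) (hA : Convex ℝ A)
    (hAc : IsCompact A) (hAi : (interior A).Nonempty) (hB : Convex ℝ B) (hBc : IsCompact B)
    (hBn : B.Nonempty) :
    ∃ T : Finset (EuclideanSpace ℝ (Fin d)),
      A + B ⊆ ⋃ t ∈ T, (fun x => t + x) '' interior (A + B) ∧
      (T.card : ℝ) ≤ 2 ^ d * (d * log d / 2 + d * log (log d) / 2 + 6 * d) := by
  have hfr : finrank ℝ (EuclideanSpace ℝ (Fin d)) = d := by simp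
  rcases lt_or_ge (log (d : ℝ) + log (log d)) 8 with h8 | h8
  · obtain ⟨T, hT, hcard⟩ := all_gen A B hA hAc hAi hB hBc hBn d hfr hd
    refine ⟨T, hT, hcard.trans ?_⟩
    refine mul_le_mul_of_nonneg_left ?_ (by positivity)
    have hd0 : (0 : ℝ) < d := by exact_mod_cast (by omega : 0 < d)
    nlinarith
  · obtain ⟨ζ, ρ, hζ, hρ0, hρ, k, n, hk, hn, hnle⟩ := steps6 d hd h8
    have hVL : (0 : ℝ) < 3.58 ^ d / (d.factorial : ℝ) := by
      have : (0 : ℝ) < d.factorial := by exact_mod_cast Nat.factorial_pos d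
      positivity
    obtain ⟨T, hT, hcard⟩ := cov_main volume hA hAc hAi hB hBc hBn (by rw [hfr]; omega)
      (3.58 ^ d / (d.factorial : ℝ)) ((2 * π * exp 1 / d) ^ d) hVL (vp_lower d)
      (fun S hS => Pool.Agent.H845R2.santalo_bound (by omega) hS) hζ hρ0 hρ k n
      (by rw [hfr]; exact hk) (by rw [hfr]; exact hn)
    exact ⟨T, hT, le_trans (by exact_mod_cast hcard) hnle⟩

end Pool.Agent.K3h52.HR
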