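import Pool.Agent.H845R2.Sa

set_option autoImplicit false
set_option linter.unusedSectionVars false

/-!
Polars of convex bodies with the origin in the interior.
-/

namespace Pool.Agent.K3h52.HR

open scoped RealInnerProductSpace Pointwise
open Module MeasureTheory
open Pool.Agent.H845R2 (SB pol pol_anti pol_closed pol_convex)

variable {V : Type*} [NormedAddCommGroup V] [InnerProductSpace ℝ V]

/-- Convex bodies with the origin in the interior. -/
structure Bd (K : Set V) : Prop where
  comp : IsCompact K
  conv : Convex ℝ K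
  i0 : (0 : V) ∈ interior K

theorem Bd.zero {K : Set V} (h : Bd K) : (0 : V) ∈ K := interior_subset h.i0

theorem sb_bd {K : Set V} (h : SB K) : Bd K := ⟨h.comp, h.conv, h.zero_int⟩

theorem zero_mem_pol (K : Set V) : (0 : V) ∈ pol K := fun x _ => by
  rw [inner_zero_right]; exact zero_le_one

theorem pol_comp [FiniteDimensional ℝ V] {K : Set V} (h0 : (0 : V) ∈ interior K) :
    IsCompact (pol K) := by
  obtain ⟨r, hr, h⟩ : ∃ r > 0, Metric.closedBall (0 : V) r ⊆ K :=
    Metric.nhds_basis_closedBall.mem_iff.1 (mem_interior_iff_mem_nhds.1 h0)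
  refine Metric.isCompact_of_isClosed_isBounded (pol_closed K)
    ((Metric.isBounded_closedBall (x := (0 : V)) (r := 1 / r)).subset fun y hy => ?_)
  rw [mem_closedBall_zero_iff]
  rcases eq_or_ne y 0 with rfl | hy0
  · rw [norm_zero]; positivity
  have hy0' : 0 < ‖y‖ := norm_pos_iff.2 hy0
  have h1 := hy ((r / ‖y‖) • y) (h (by
    rw [mem_closedBall_zero_iff, norm_smul, Real.norm_of_nonneg (by positivity),
      div_mul_cancel₀ _ hy0'.ne']))
  rw [inner_smul_left, real_inner_self_eq_norm_sq] at h1
  simp only [conj_trivial] at h1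
  rw [le_div_iff₀ hr]
  have h2 : r / ‖y‖ * ‖y‖ ^ 2 = ‖y‖ * r := by field_simp
  linarith

theorem Bd.bip [FiniteDimensional ℝ V] {K : Set V} (hK : Bd K) : pol (pol K) ⊆ K := by
  intro x hx
  by_contra hxK
  obtain ⟨f, u, h1, h2⟩ := geometric_hahn_banach_closed_point hK.conv hK.comp.isClosed hxK
  have hu : 0 < u := by
    have := h1 0 hK.zero
    simpa using this
  set y := (InnerProductSpace.toDual ℝ V).symm f with hy
  have hfy : ∀ z, f z = ⟪y, z⟫ := by
    intro z
    rw [hy, InnerProductSpace.toDual_symm_apply]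
  have h3 : u⁻¹ • y ∈ pol K := by
    intro k hk
    rw [inner_smul_right, real_inner_comm, ← hfy, inv_mul_le_iff₀ hu, mul_one]
    exact (h1 k hk).le
  have h4 := hx _ h3
  rw [inner_smul_left, ← hfy] at h4
  simp only [conj_trivial] at h4
  rw [inv_mul_le_iff₀ hu, mul_one] at h4
  linarith

theorem pol_inter [FiniteDimensional ℝ V] {K L : Set V} (hK : Bd K) (hL : Bd L) :
    pol (K ∩ L) ⊆ pol K + pol L := by
  intro w hw
  by_contra hcon
  have hc : Convex ℝ (pol K + pol L) := (pol_convex K).add (pol_convex L)
  have hcl : IsClosed (pol K + pol L) := ((pol_comp hK.i0).add (pol_comp hL.i0)).isClosed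
  obtain ⟨f, u, h1, h2⟩ := geometric_hahn_banach_closed_point hc hcl hcon
  set y := (InnerProductSpace.toDual ℝ V).symm f with hy
  have hfy : ∀ z, f z = ⟪y, z⟫ := by
    intro z
    rw [hy, InnerProductSpace.toDual_symm_apply]
  have hu : 0 < u := by
    have := h1 (0 + 0) (Set.add_mem_add (zero_mem_pol K) (zero_mem_pol L))
    simpa using this
  have hyK : u⁻¹ • y ∈ K := by
    apply hK.bip
    intro a ha
    have := h1 (a + 0) (Set.add_mem_add ha (zero_mem_pol L))
    rw [add_zero, hfy] at this
    rw [inner_smul_right, real_inner_comm, inv_mul_le_iff₀ hu, mul_one]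
    exact this.le
  have hyL : u⁻¹ • y ∈ L := by
    apply hL.bip
    intro a ha
    have := h1 (0 + a) (Set.add_mem_add (zero_mem_pol K) ha)
    rw [zero_add, hfy] at this
    rw [inner_smul_right, real_inner_comm, inv_mul_le_iff₀ hu, mul_one]
    exact this.le
  have h3 := hw _ ⟨hyK, hyL⟩
  rw [inner_smul_left, ← hfy] at h3
  simp only [conj_trivial] at h3
  rw [inv_mul_le_iff₀ hu, mul_one] at h3
  linarith

/-- The largest symmetric set about `p` in `K`, moved to the origin. -/
def Mac (K : Set V) (p : V) : Set V := {a | p + a ∈ K ∧ p - a ∈ K}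

theorem mac_comp {K : Set V} (hK : IsCompact K) (p : V) : IsCompact (Mac K p) := by
  have h1 : IsClosed (Mac K p) := by
    have e : Mac K p = (fun a => p + a) ⁻¹' K ∩ (fun a => p - a) ⁻¹' K := rfl
    rw [e]
    exact (hK.isClosed.preimage (by fun_prop)).inter (hK.isClosed.preimage (by fun_prop))
  refine (hK.image (f := fun y => y - p) (by fun_prop)).of_isClosed_subset h1 ?_
  intro a ha
  exact ⟨p + a, ha.1, by simp⟩

theorem mac_conv {K : Set V} (hK : Convex ℝ K) (p : V) : Convex ℝ (Mac K p) := by
  intro x hx y hy a b ha hb hab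
  have e0 : p = a • p + b • p := by rw [← add_smul, hab, one_smul]
  constructor
  · have := hK hx.1 hy.1 ha hb hab
    have e : p + (a • x + b • y) = a • (p + x) + b • (p + y) := by
      nth_rewrite 1 [e0]
      rw [smul_add, smul_add]
      abel
    rw [e]
    exact this
  · have := hK hx.2 hy.2 ha hb hab
    have e : p - (a • x + b • y) = a • (p - x) + b • (p - y) := by
      nth_rewrite 1 [e0]
      rw [smul_sub, smul_sub]
      abel
    rw [e]
    exact this

theorem mac_symm {K : Set V} {p : V} : ∀ a ∈ Mac K p, -a ∈ Mac K p := fun a ha =>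
  ⟨by simpa [sub_eq_add_neg] using ha.2, by simpa using ha.1⟩

theorem mac_sb {K : Set V} (hK : Convex ℝ K) (hKc : IsCompact K) {p : V} (hp : p ∈ interior K) :
    SB (Mac K p) := by
  refine ⟨mac_comp hKc p, mac_conv hK p, mac_symm, ?_⟩
  refine ⟨0, ?_⟩
  have h1 : IsOpen ((fun a => p + a) ⁻¹' interior K ∩ (fun a => p - a) ⁻¹' interior K) :=
    (isOpen_interior.preimage (by fun_prop)).inter (isOpen_interior.preimage (by fun_prop))
  refine interior_maximal (s := Mac K p) ?_ h1 ?_
  · rintro a ⟨h1, h2⟩
    exact ⟨interior_subset h1, interior_subset h2⟩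
  · constructor
    · show p + 0 ∈ interior K
      rwa [add_zero]
    · show p - 0 ∈ interior K
      rwa [sub_zero]

/-- The polar of the symmetric part is in a difference set. -/
theorem pol_mac [FiniteDimensional ℝ V] {K : Set V} (hK : Convex ℝ K) (hKc : IsCompact K) {p : V}
    (hp : p ∈ interior K) :
    pol (Mac K p) ⊆ pol {a | p + a ∈ K} - pol {a | p + a ∈ K} := by
  have hA : Bd {a | p + a ∈ K} := by
    refine ⟨?_, hK.translate_preimage_right p, ?_⟩
    · refine (hKc.image (f := fun y => y - p) (by fun_prop)).of_isClosed_subset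
        (hKc.isClosed.preimage (by fun_prop)) ?_
      intro a ha
      exact ⟨p + a, ha, by simp⟩
    · have h1 : IsOpen ((fun a => p + a) ⁻¹' interior K) := isOpen_interior.preimage (by fun_prop)
      refine interior_maximal (s := {a | p + a ∈ K}) (t := (fun a => p + a) ⁻¹' interior K)
        (fun a ha => interior_subset (s := K) ha) h1 ?_
      show p + 0 ∈ interior K
      rwa [add_zero]
  have hB : Bd {a | p - a ∈ K} := by
    refine ⟨?_, ?_, ?_⟩
    · refine (hKc.image (f := fun y => p - y) (by fun_prop)).of_isClosed_subset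
        (hKc.isClosed.preimage (by fun_prop)) ?_
      intro a ha
      exact ⟨p - a, ha, by simp⟩
    · intro x hx y hy a b ha hb hab
      have e0 : p = a • p + b • p := by rw [← add_smul, hab, one_smul]
      have := hK hx hy ha hb hab
      have e : p - (a • x + b • y) = a • (p - x) + b • (p - y) := by
        nth_rewrite 1 [e0]
        rw [smul_sub, smul_sub]
        abel
      show p - (a • x + b • y) ∈ K
      rw [e]
      exact this
    · have h1 : IsOpen ((fun a => p - a) ⁻¹' interior K) := isOpen_interior.preimage (by fun_prop)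
      refine interior_maximal (s := {a | p - a ∈ K}) (t := (fun a => p - a) ⁻¹' interior K)
        (fun a ha => interior_subset (s := K) ha) h1 ?_
      show p - 0 ∈ interior K
      rwa [sub_zero]
  have h1 : pol (Mac K p) ⊆ pol {a | p + a ∈ K} + pol {a | p - a ∈ K} := pol_inter hA hB
  refine h1.trans ?_
  rintro _ ⟨v, hv, w, hw, rfl⟩
  refine ⟨v, hv, -w, ?_, by simp⟩
  intro a ha
  have := hw (-a) (by
    show p - -a ∈ K
    rw [sub_neg_eq_add]
    exact ha)
  rw [inner_neg_left] at this
  rw [inner_neg_right]
  exact this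

end Pool.Agent.K3h52.HR
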